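import Mathlib

/-!
Definitions for MP_874a88_al: flat modules over an associative ring (equational criterion),
cotorsion modules (via Mathlib's `Ext` in the category of modules), finitely generated right
modules along a ring homomorphism, and relative left perfectness.
-/

namespace H31.Cot

open CategoryTheory CategoryTheory.Abelian

/-- Flatness of a left module `F` over an associative ring `S`, by the equational criterion:
whenever `∑ rᵢ fᵢ = 0` in `F`, there are `g₁, …, g_m` in `F` and a matrix `(aᵢⱼ)` over `S` with
`fᵢ = ∑ⱼ aᵢⱼ gⱼ` for all `i` and `∑ᵢ rᵢ aᵢⱼ = 0` for all `j`. -/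
def IsFlat (S : Type) [Ring S] (F : Type) [AddCommGroup F] [Module S F] : Prop :=
  ∀ (n : ℕ) (r : Fin n → S) (f : Fin n → F), ∑ i, r i • f i = 0 →
    ∃ (m : ℕ) (a : Fin n → Fin m → S) (g : Fin m → F),
      (∀ i, f i = ∑ j, a i j • g j) ∧ ∀ j, ∑ i, r i * a i j = 0

/-- A left `S`-module `C` is cotorsion if `Ext¹(F, C) = 0` for every flat left `S`-module `F`. -/
def IsCotorsion (S : Type) [Ring S] (C : ModuleCat.{0} S) : Prop :=
  ∀ F : ModuleCat.{0} S, IsFlat S F → Subsingleton (Ext.{0} F C 1)

/-- Through `f : R → A`, the ring `A` is a finitely generated right `R`-module: there are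
finitely many elements `x` of `A` such that every `a` in `A` is `∑ x * f (c x)`. -/
def FinitelyGeneratedRight {R A : Type} [Ring R] [Ring A] (f : R →+* A) : Prop :=
  ∃ s : Finset A, ∀ a : A, ∃ c : A → R, a = ∑ x ∈ s, x * f (c x)

/-- `f : R → A` is relatively left perfect: every left `A`-module whose underlying left
`R`-module is cotorsion is cotorsion as an `A`-module. -/
def RelativelyLeftPerfect {R A : Type} [Ring R] [Ring A] (f : R →+* A) : Prop :=
  ∀ C : ModuleCat.{0} A,
    IsCotorsion R ((ModuleCat.restrictScalars f).obj C) → IsCotorsion A C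

end H31.Cot
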