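import Mathlib
import Pool.Agent.H31.Cot.Defs

set_option linter.unusedSimpArgs false
set_option linter.unusedVariables false

namespace H31.Cot

variable {S : Type} [Ring S] {L : Type} [AddCommGroup L] [Module S L]

/-- The quotient `L ⧸ K` is flat, in terms of elements of `L`. -/
def FlatQuot (K : Submodule S L) : Prop :=
  ∀ (n : ℕ) (r : Fin n → S) (f : Fin n → L), ∑ i, r i • f i ∈ K →
    ∃ (m : ℕ) (a : Fin n → Fin m → S) (g : Fin m → L),
      (∀ i, f i - ∑ j, a i j • g j ∈ K) ∧ ∀ j, ∑ i, r i * a i j = 0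

theorem flatQuot_iff (K : Submodule S L) : IsFlat S (L ⧸ K) ↔ FlatQuot K := by
  constructor
  · intro h n r f hf
    obtain ⟨m, a, g, h1, h2⟩ := h n r (fun i => K.mkQ (f i)) (by
      rw [← (Submodule.Quotient.mk_eq_zero K)] at hf
      rw [← hf]
      simp [← Submodule.mkQ_apply, map_sum])
    choose g' hg' using fun j => Submodule.mkQ_surjective K (g j)
    refine ⟨m, a, g', fun i => ?_, h2⟩
    rw [← Submodule.Quotient.mk_eq_zero, ← Submodule.mkQ_apply, map_sub, h1 i, map_sum, sub_eq_zero]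
    simp only [map_smul, hg']
  · intro h n r f hf
    choose f' hf' using fun j => Submodule.mkQ_surjective K (f j)
    obtain ⟨m, a, g, h1, h2⟩ := h n r f' (by
      rw [← (Submodule.Quotient.mk_eq_zero K), ← Submodule.mkQ_apply, map_sum, ← hf]
      simp only [map_smul, hf'])
    refine ⟨m, a, fun j => K.mkQ (g j), fun i => ?_, h2⟩
    have := h1 i
    rw [← Submodule.Quotient.mk_eq_zero, ← Submodule.mkQ_apply, map_sub, map_sum, sub_eq_zero,
      hf'] at this
    simpa only [map_smul] using this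

theorem IsFlat.fintype {F : Type} [AddCommGroup F] [Module S F] (h : IsFlat S F) {ι : Type}
    [Fintype ι] (r : ι → S) (f : ι → F) (hf : ∑ i, r i • f i = 0) :
    ∃ (m : ℕ) (a : ι → Fin m → S) (g : Fin m → F),
      (∀ i, f i = ∑ j, a i j • g j) ∧ ∀ j, ∑ i, r i * a i j = 0 := by
  classical
  let e := Fintype.equivFin ι
  obtain ⟨m, a, g, h1, h2⟩ := h (Fintype.card ι) (r ∘ e.symm) (f ∘ e.symm) (by
    rw [← hf]
    exact Equiv.sum_comp e.symm (fun i => r i • f i))
  refine ⟨m, fun i j => a (e i) j, g, fun i => ?_, fun j => ?_⟩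
  · have := h1 (e i)
    simpa using this
  · rw [← h2 j]
    rw [← Equiv.sum_comp e.symm]
    simp

theorem FlatQuot.fintype {K : Submodule S L} (h : FlatQuot K) {ι : Type}
    [Fintype ι] (r : ι → S) (f : ι → L) (hf : ∑ i, r i • f i ∈ K) :
    ∃ (m : ℕ) (a : ι → Fin m → S) (g : Fin m → L),
      (∀ i, f i - ∑ j, a i j • g j ∈ K) ∧ ∀ j, ∑ i, r i * a i j = 0 := by
  classical
  let e := Fintype.equivFin ι
  obtain ⟨m, a, g, h1, h2⟩ := h (Fintype.card ι) (r ∘ e.symm) (f ∘ e.symm) (by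
    convert hf using 1
    exact Equiv.sum_comp e.symm (fun i => r i • f i))
  refine ⟨m, fun i j => a (e i) j, g, fun i => ?_, fun j => ?_⟩
  · have := h1 (e i)
    simpa using this
  · rw [← h2 j]
    rw [← Equiv.sum_comp e.symm]
    simp

/-- Purity: if `L ⧸ K` is flat and `∑ rᵢ lᵢ ∈ K`, then `∑ rᵢ lᵢ = ∑ rᵢ κᵢ` with `κᵢ ∈ K`. -/
theorem FlatQuot.pure {K : Submodule S L} (h : FlatQuot K) {ι : Type}
    [Fintype ι] (r : ι → S) (f : ι → L) (hf : ∑ i, r i • f i ∈ K) :
    ∃ κ : ι → L, (∀ i, κ i ∈ K) ∧ ∑ i, r i • f i = ∑ i, r i • κ i := by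
  obtain ⟨m, a, g, h1, h2⟩ := h.fintype r f hf
  refine ⟨fun i => f i - ∑ j, a i j • g j, h1, ?_⟩
  simp only [smul_sub, Finset.sum_sub_distrib, Finset.smul_sum, smul_smul]
  rw [Finset.sum_comm]
  simp only [← Finset.sum_smul, h2, zero_smul, Finset.sum_const_zero, sub_zero]

/-- A directed union of submodules with flat quotients has a flat quotient. -/
theorem FlatQuot.sSup {c : Set (Submodule S L)} (hne : c.Nonempty)
    (hdir : DirectedOn (· ≤ ·) c) (h : ∀ K ∈ c, FlatQuot K) : FlatQuot (sSup c) := by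
  intro n r f hf
  rw [Submodule.mem_sSup_of_directed hne hdir] at hf
  obtain ⟨K, hK, hfK⟩ := hf
  obtain ⟨m, a, g, h1, h2⟩ := h K hK n r f hfK
  exact ⟨m, a, g, fun i => (le_sSup hK) (h1 i), h2⟩

theorem FlatQuot.comap {F₀ : Submodule S L} (h₀ : FlatQuot F₀) {M : Submodule S (L ⧸ F₀)}
    (hM : FlatQuot M) : FlatQuot (M.comap F₀.mkQ) := by
  intro n r f hf
  rw [Submodule.mem_comap, map_sum] at hf
  simp only [map_smul] at hf
  obtain ⟨m, a, g, h1, h2⟩ := hM n r (fun i => F₀.mkQ (f i)) hf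
  choose g' hg' using fun j => Submodule.mkQ_surjective F₀ (g j)
  refine ⟨m, a, g', fun i => ?_, h2⟩
  rw [Submodule.mem_comap, map_sub, map_sum]
  simpa only [map_smul, hg'] using h1 i

/-- A submodule closed under solving finite systems of linear equations. -/
def IsPureSub (M : Submodule S L) : Prop :=
  ∀ (p q : ℕ) (a : Fin p → Fin q → S) (m : Fin p → L), (∀ i, m i ∈ M) →
    (∃ x : Fin q → L, ∀ i, m i = ∑ j, a i j • x j) →
    ∃ x : Fin q → L, (∀ j, x j ∈ M) ∧ ∀ i, m i = ∑ j, a i j • x j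

theorem IsPureSub.isFlat {M : Submodule S L} (hM : IsPureSub M) (hL : IsFlat S L) :
    IsFlat S M := by
  intro n r f hf
  obtain ⟨m, a, g, h1, h2⟩ := hL n r (fun i => (f i : L)) (by
    have := congrArg (Submodule.subtype M) hf
    simpa [map_sum] using this)
  obtain ⟨x, hx, hx'⟩ := hM n m a (fun i => (f i : L)) (fun i => (f i).2) ⟨g, h1⟩
  refine ⟨m, a, fun j => ⟨x j, hx j⟩, fun i => ?_, h2⟩
  apply Subtype.ext
  rw [hx' i]
  simp

theorem IsPureSub.flatQuot {M : Submodule S L} (hM : IsPureSub M) (hL : IsFlat S L) :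
    FlatQuot M := by
  intro n r f hf
  obtain ⟨x, hx, hx'⟩ := hM 1 n (fun _ i => r i) (fun _ => ∑ i, r i • f i) (fun _ => hf)
    ⟨f, fun _ => rfl⟩
  obtain ⟨m, a, g, h1, h2⟩ := hL n r (fun i => f i - x i) (by
    simp only [smul_sub, Finset.sum_sub_distrib]
    rw [← hx' 0, sub_self])
  refine ⟨m, a, g, fun i => ?_, h2⟩
  have := h1 i
  rw [← this]
  simpa using hx i

end H31.Cot
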