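import Mathlib
import Pool.Agent.H31.Cot.Flat

set_option linter.unusedSimpArgs false
set_option linter.unusedVariables false

namespace H31.Cot

open Cardinal FirstOrder

/-- Function symbols: linear combinations, and solutions of finite linear systems. -/
def solveLang (S : Type) : FirstOrder.Language.{0, 0} where
  Functions n := (Fin n → S) ⊕ (Σ q : ℕ, (Fin n → Fin q → S) × Fin q)
  Relations _ := Empty

variable {S : Type} [Ring S] {L : Type} [AddCommGroup L] [Module S L]

open Classical in
noncomputable instance solveStr : (solveLang S).Structure L where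
  funMap {n} f m :=
    match f with
    | Sum.inl r => ∑ i, r i • m i
    | Sum.inr ⟨q, a, j⟩ =>
      if h : ∃ x : Fin q → L, ∀ i, m i = ∑ j, a i j • x j then h.choose j else 0
  RelMap {n} r _ := r.elim

theorem card_functions_le (κ : Cardinal.{0}) (hκ : ℵ₀ ≤ κ) (hS : #S ≤ κ) :
    #(Σ i, (solveLang S).Functions i) ≤ κ := by
  have hpow : ∀ n : ℕ, #(Fin n → S) ≤ κ := by
    intro n
    calc #(Fin n → S) = #S ^ n := by simp
      _ ≤ κ ^ n := Cardinal.power_le_power_right hS
      _ ≤ κ := by exact_mod_cast Cardinal.power_nat_le hκ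
  have hpow2 : ∀ n q : ℕ, #(Fin n → Fin q → S) ≤ κ := by
    intro n q
    calc #(Fin n → Fin q → S) = #(Fin q → S) ^ n := by simp
      _ ≤ κ ^ n := Cardinal.power_le_power_right (hpow q)
      _ ≤ κ := by exact_mod_cast Cardinal.power_nat_le hκ
  have hsig : ∀ (T : ℕ → Type), (∀ n, #(T n) ≤ κ) → #(Σ n, T n) ≤ κ := by
    intro T hT
    rw [Cardinal.mk_sigma]
    calc Cardinal.sum (fun n => #(T n)) ≤ Cardinal.sum (fun _ : ℕ => κ) :=
          Cardinal.sum_le_sum _ _ hT
      _ = ℵ₀ * κ := by simp
      _ ≤ κ := by rw [Cardinal.aleph0_mul_eq hκ]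
  apply hsig
  intro n
  change #((Fin n → S) ⊕ (Σ q : ℕ, (Fin n → Fin q → S) × Fin q)) ≤ κ
  rw [Cardinal.mk_sum, Cardinal.lift_id, Cardinal.lift_id]
  apply Cardinal.add_le_of_le hκ (hpow n)
  apply hsig
  intro q
  rw [Cardinal.mk_prod, Cardinal.lift_id, Cardinal.lift_id]
  exact Cardinal.mul_le_of_le hκ (hpow2 n q) (by simpa using (Cardinal.natCast_lt_aleph0 (n := q)).le.trans hκ)

theorem exists_pure_small (κ : Cardinal.{0}) (hκ : ℵ₀ ≤ κ) (hS : #S ≤ κ) (x : L) :
    ∃ M : Submodule S L, x ∈ M ∧ #M ≤ κ ∧ IsPureSub M := by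
  classical
  let N : (solveLang S).Substructure L := Language.Substructure.closure (solveLang S) {x}
  have hcard : #N ≤ κ := by
    have h := Language.Substructure.lift_card_closure_le (L := solveLang S) (M := L) (s := {x})
    simp only [Cardinal.lift_id] at h
    refine h.trans (max_le hκ (Cardinal.add_le_of_le hκ ?_ (card_functions_le κ hκ hS)))
    simpa using Cardinal.one_le_aleph0.trans hκ
  have hlin : ∀ (n : ℕ) (r : Fin n → S) (m : Fin n → L), (∀ i, m i ∈ N) →
      ∑ i, r i • m i ∈ N := by
    intro n r m hm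
    exact N.fun_mem (n := n) (Sum.inl r) m hm
  have hsolve : ∀ (n q : ℕ) (a : Fin n → Fin q → S) (m : Fin n → L), (∀ i, m i ∈ N) →
      (∃ x : Fin q → L, ∀ i, m i = ∑ j, a i j • x j) →
      ∃ x : Fin q → L, (∀ j, x j ∈ N) ∧ ∀ i, m i = ∑ j, a i j • x j := by
    intro n q a m hm hex
    refine ⟨hex.choose, fun j => ?_, hex.choose_spec⟩
    have := N.fun_mem (n := n) (Sum.inr ⟨q, a, j⟩) m hm
    have h2 : Language.Structure.funMap (L := solveLang S) (M := L) (n := n)
        (Sum.inr ⟨q, a, j⟩) m = hex.choose j := by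
      change (if h : ∃ x : Fin q → L, ∀ i, m i = ∑ j, a i j • x j then h.choose j else 0) = _
      rw [dif_pos hex]
    rw [h2] at this
    exact this
  let M : Submodule S L :=
    { carrier := (N : Set L)
      add_mem' := by
        intro u v hu hv
        have := hlin 2 ![1, 1] ![u, v] (by
          intro i; fin_cases i
          · exact hu
          · exact hv)
        simpa [Fin.sum_univ_two] using this
      zero_mem' := by
        have := hlin 0 ![] ![] (fun i => i.elim0)
        simpa using this
      smul_mem' := by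
        intro c u hu
        have := hlin 1 ![c] ![u] (by
          intro i; fin_cases i
          exact hu)
        simpa using this }
  refine ⟨M, ?_, hcard, ?_⟩
  · exact Language.Substructure.subset_closure (Set.mem_singleton x)
  · intro p q a m hm hex
    exact hsolve p q a m hm hex

end H31.Cot
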