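import Mathlib

set_option linter.unusedSimpArgs false
set_option linter.unusedVariables false

namespace H31.Cot

open MonoidAlgebra

/-- The free associative algebra over `k` on the set `X`. -/
abbrev FA (k X : Type) [Field k] : Type := MonoidAlgebra k (FreeMonoid X)

variable {k X : Type} [Field k]

/-- The generator `y_x` of the free algebra. -/
noncomputable def gen (k : Type) {X : Type} [Field k] (x : X) : FA k X :=
  MonoidAlgebra.single (FreeMonoid.of x) 1

theorem coeff_gen_mul_self (x : X) (r : FA k X) (w : FreeMonoid X) :
    (gen k x * r).coeff (FreeMonoid.of x * w) = r.coeff w := by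
  unfold gen
  rw [coeff_single_mul_eq_mul_coeff (m₂ := w)]
  · simp
  · intro m' _
    constructor
    · intro h
      exact mul_left_cancel h
    · rintro rfl; rfl

theorem of_mul_inj {x z : X} {v w : FreeMonoid X}
    (h : FreeMonoid.of x * v = FreeMonoid.of z * w) : x = z := by
  have h' : FreeMonoid.toList (FreeMonoid.of x * v) = FreeMonoid.toList (FreeMonoid.of z * w) := by
    rw [h]
  simp [FreeMonoid.toList_mul, FreeMonoid.toList_of] at h'
  exact h'.1

theorem coeff_gen_mul_of_ne {x z : X} (hxz : x ≠ z) (r : FA k X) (w : FreeMonoid X) :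
    (gen k x * r).coeff (FreeMonoid.of z * w) = 0 := by
  unfold gen
  apply coeff_single_mul_of_forall_mul_ne
  intro d h
  exact hxz (of_mul_inj h)

/-- A finitely supported function on words with `s w = s (β w) + s (β' w)` for all words `w`
vanishes. -/
theorem eq_zero_of_rec (s : FA k X) (b b' : X)
    (h : ∀ w : FreeMonoid X, s.coeff w = s.coeff (FreeMonoid.of b * w)
      + s.coeff (FreeMonoid.of b' * w)) : s = 0 := by
  classical
  -- bound on the length
  obtain ⟨N, hN⟩ : ∃ N : ℕ, ∀ w : FreeMonoid X, N < w.length → s.coeff w = 0 := by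
    refine ⟨s.coeff.support.sup FreeMonoid.length, fun w hw => ?_⟩
    by_contra hne
    have : w ∈ s.coeff.support := by simpa using hne
    exact absurd (Finset.le_sup (f := FreeMonoid.length) this) (not_le.mpr hw)
  have key : ∀ n : ℕ, ∀ w : FreeMonoid X, N < w.length + n → s.coeff w = 0 := by
    intro n
    induction n with
    | zero => intro w hw; exact hN w (by simpa using hw)
    | succ n ih =>
      intro w hw
      rw [h w, ih, ih, add_zero]
      · simp [FreeMonoid.length_mul]; omega
      · simp [FreeMonoid.length_mul]; omega
  ext w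
  exact key (N + 1) w (by omega)

/-- The independence lemma: if `(1 - y_b) c + (1 - y_{b'}) c' + ∑_i y_{z i} d_i = 0` with
`b ≠ b'` and all `z i` different from `b` and `b'`, then `c = c' = 0`. -/
theorem indep (b b' : X) (hbb : b ≠ b') (c c' : FA k X) {ι : Type} [Fintype ι] (z : ι → X)
    (d : ι → FA k X) (hb : ∀ i, z i ≠ b) (hb' : ∀ i, z i ≠ b')
    (h : (1 - gen k b) * c + ((1 - gen k b') * c' + ∑ i, gen k (z i) * d i) = 0) :
    c = 0 ∧ c' = 0 := by
  classical
  have hcoeff : ∀ w : FreeMonoid X, ((1 - gen k b) * c + ((1 - gen k b') * c'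
      + ∑ i, gen k (z i) * d i)).coeff w = 0 := by
    intro w; rw [h]; rfl
  have hsum : ∀ w : FreeMonoid X, (∑ i, gen k (z i) * d i).coeff w
      = ∑ i, (gen k (z i) * d i).coeff w := by
    intro w
    simp
  have h1 : ∀ w : FreeMonoid X, c.coeff w = c.coeff (FreeMonoid.of b * w)
      + c'.coeff (FreeMonoid.of b * w) := by
    intro w
    have := hcoeff (FreeMonoid.of b * w)
    rw [sub_mul, sub_mul, one_mul, one_mul, coeff_add, coeff_add, coeff_sub, coeff_sub,
      Finsupp.add_apply, Finsupp.add_apply, Finsupp.sub_apply, Finsupp.sub_apply,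
      coeff_gen_mul_self, coeff_gen_mul_of_ne hbb.symm, hsum,
      Finset.sum_eq_zero (fun i hi => coeff_gen_mul_of_ne (hb i) _ _)] at this
    linear_combination -this
  have h2 : ∀ w : FreeMonoid X, c'.coeff w = c.coeff (FreeMonoid.of b' * w)
      + c'.coeff (FreeMonoid.of b' * w) := by
    intro w
    have := hcoeff (FreeMonoid.of b' * w)
    rw [sub_mul, sub_mul, one_mul, one_mul, coeff_add, coeff_add, coeff_sub, coeff_sub,
      Finsupp.add_apply, Finsupp.add_apply, Finsupp.sub_apply, Finsupp.sub_apply,
      coeff_gen_mul_self, coeff_gen_mul_of_ne hbb, hsum,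
      Finset.sum_eq_zero (fun i hi => coeff_gen_mul_of_ne (hb' i) _ _)] at this
    linear_combination -this
  have hs : c + c' = 0 := by
    apply eq_zero_of_rec _ b b'
    intro w
    rw [coeff_add, Finsupp.add_apply, Finsupp.add_apply, Finsupp.add_apply, h1 w, h2 w]
  have hs' : ∀ w : FreeMonoid X, c.coeff w + c'.coeff w = 0 := by
    intro w
    have := congrArg (fun z : FA k X => z.coeff w) hs
    simpa using this
  constructor
  · ext w
    rw [h1 w, hs']
    rfl
  · ext w
    rw [h2 w, hs']
    rfl

/-- A `k`-linear subset of the free algebra closed under left multiplication by generators and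
containing `1` is everything: induction principle. -/
theorem FA_induction {motive : FA k X → Prop} (r : FA k X)
    (one : motive 1) (add : ∀ a b, motive a → motive b → motive (a + b))
    (smul : ∀ (c : k) a, motive a → motive (c • a))
    (mul : ∀ x a, motive a → motive (gen k x * a)) : motive r := by
  have hw : ∀ w : FreeMonoid X, motive (MonoidAlgebra.single w 1) := by
    intro w
    induction w using FreeMonoid.inductionOn' with
    | one => exact one
    | of_mul x w ih =>
      have : (MonoidAlgebra.single (FreeMonoid.of x * w) 1 : FA k X)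
          = gen k x * MonoidAlgebra.single w 1 := by
        unfold gen
        rw [MonoidAlgebra.single_mul_single, one_mul]
      rw [this]
      exact mul x _ ih
  induction r using MonoidAlgebra.induction_linear with
  | zero => simpa using smul 0 1 one
  | add f g hf hg => exact add f g hf hg
  | single m r =>
    have : (MonoidAlgebra.single m r : FA k X) = r • MonoidAlgebra.single m 1 := by
      simp
    rw [this]
    exact smul r _ (hw m)

end H31.Cot
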