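import Mathlib
import Pool.Agent.H31.Cot.Flat
import Pool.Agent.H31.Cot.FreeAlg

set_option linter.unusedSimpArgs false
set_option linter.unusedVariables false

namespace H31.Cot

/-- Extending a functional from a subspace `V` by zero on `K`. -/
theorem exists_functional {k L : Type} [Field k] [AddCommGroup L] [Module k L]
    (V K : Submodule k L) (g : L →ₗ[k] k) (h : ∀ u ∈ V, u ∈ K → g u = 0) :
    ∃ G : L →ₗ[k] k, (∀ v ∈ V, G v = g v) ∧ ∀ u ∈ K, G u = 0 := by
  -- the image of `V` in `L ⧸ K`
  let p : LinearMap (RingHom.id k) V (L ⧸ K) := K.mkQ.comp V.subtype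
  have hker : LinearMap.ker p ≤ LinearMap.ker (g.comp V.subtype) := by
    intro v hv
    rw [LinearMap.mem_ker] at hv ⊢
    have : (v : L) ∈ K := by
      have h2 : K.mkQ (v : L) = 0 := hv
      rwa [Submodule.mkQ_apply, Submodule.Quotient.mk_eq_zero] at h2
    exact h v v.2 this
  -- the factored map from the range
  let q : (LinearMap.range p) →ₗ[k] k :=
    ((LinearMap.ker p).liftQ (g.comp V.subtype) hker).comp
      p.quotKerEquivRange.symm.toLinearMap
  obtain ⟨Q, hQ⟩ := LinearMap.exists_extend q
  refine ⟨Q.comp K.mkQ, fun v hv => ?_, fun u hu => ?_⟩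
  · have h1 : Q (K.mkQ v) = q ⟨p ⟨v, hv⟩, LinearMap.mem_range_self _ _⟩ := by
      rw [← hQ]; rfl
    have h2 : p.quotKerEquivRange.symm ⟨p ⟨v, hv⟩, LinearMap.mem_range_self _ _⟩
        = Submodule.Quotient.mk ⟨v, hv⟩ := by
      rw [LinearEquiv.symm_apply_eq]
      rfl
    simp only [LinearMap.comp_apply, h1, q, LinearEquiv.coe_coe, h2]
    rfl
  · have : K.mkQ u = 0 := by simpa using hu
    simp [this]

section

variable (k : Type) {X : Type} [Field k] {L : Type} [AddCommGroup L] [Module (FA k X) L]
  [Module k L] [IsScalarTower k (FA k X) L]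

/-- `(ker χ_x) L`, where `χ_x` sends `y_x` to `1` and the other generators to `0`. -/
noncomputable def KK (L : Type) [AddCommGroup L] [Module (FA k X) L]
    [Module k L] [IsScalarTower k (FA k X) L] (x : X) : Submodule k L :=
  LinearMap.range (LinearMap.coprod (Algebra.lsmul k k L (1 - gen k x))
    (Finsupp.lsum k (fun α : {α : X // α ≠ x} => Algebra.lsmul k k L (gen k α.1))))

/-- `𝔪 L`, where `𝔪` is the augmentation ideal. -/
noncomputable def MM (X : Type) (L : Type) [AddCommGroup L] [Module (FA k X) L]
    [Module k L] [IsScalarTower k (FA k X) L] : Submodule k L :=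
  LinearMap.range (Finsupp.lsum k (fun α : X => Algebra.lsmul k k L (gen k α)))

variable {k}

theorem mem_KK {x : X} {u : L} : u ∈ KK k L x ↔ ∃ (f : L) (h : {α : X // α ≠ x} →₀ L),
    u = (1 - gen k x) • f + h.sum (fun α l => gen k α.1 • l) := by
  unfold KK
  rw [LinearMap.mem_range]
  constructor
  · rintro ⟨⟨f, h⟩, rfl⟩
    exact ⟨f, h, by simp [sub_smul]⟩
  · rintro ⟨f, h, rfl⟩
    exact ⟨⟨f, h⟩, by simp [sub_smul]⟩

theorem mem_MM {u : L} : u ∈ MM k X L ↔ ∃ (h : X →₀ L),
    u = h.sum (fun α l => gen k α • l) := by
  unfold MM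
  rw [LinearMap.mem_range]
  constructor
  · rintro ⟨h, rfl⟩
    exact ⟨h, by simp⟩
  · rintro ⟨h, rfl⟩
    exact ⟨h, by simp⟩

theorem one_sub_gen_smul_mem (x : X) (l : L) : (1 - gen k x) • l ∈ KK k L x :=
  mem_KK.2 ⟨l, 0, by simp⟩

theorem gen_smul_mem {x α : X} (hα : α ≠ x) (l : L) : gen k α • l ∈ KK k L x :=
  mem_KK.2 ⟨0, Finsupp.single ⟨α, hα⟩ l, by simp⟩

theorem gen_smul_mem_MM (α : X) (l : L) : gen k α • l ∈ MM k X L :=
  mem_MM.2 ⟨Finsupp.single α l, by simp⟩

open Classical in
/-- A family of functionals vanishing on the `KK x` is a map commuting with the generators. -/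
theorem map_gen_smul (G : X → (L →ₗ[k] k)) (hG : ∀ x, ∀ u ∈ KK k L x, G x u = 0) (α x : X)
    (l : L) : G x (gen k α • l) = if α = x then G x l else 0 := by
  split_ifs with h
  · subst h
    have := hG α _ (one_sub_gen_smul_mem α l)
    rw [sub_smul, one_smul, map_sub, sub_eq_zero] at this
    exact this.symm
  · exact hG x _ (gen_smul_mem h l)

/-- A `k`-linear map commuting with the generators is linear over the free algebra. -/
theorem map_smul_of_gen {N : Type} [AddCommGroup N] [Module (FA k X) N] [Module k N]
    [IsScalarTower k (FA k X) N] (T : L →ₗ[k] N)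
    (h : ∀ (α : X) (l : L), T (gen k α • l) = gen k α • T l) (r : FA k X) (l : L) :
    T (r • l) = r • T l := by
  induction r using FA_induction generalizing l with
  | one => simp
  | add a b ha hb => rw [add_smul, add_smul, map_add, ha, hb]
  | smul c a ha => rw [smul_assoc, smul_assoc, map_smul, ha]
  | mul x a ha => rw [mul_smul, mul_smul, h, ha]

end

section PP

/-- The product of the one-dimensional modules `k_x`. -/
def PP (k X : Type) : Type := X → k

variable (k X : Type) [Field k]

noncomputable instance : AddCommGroup (PP k X) := inferInstanceAs (AddCommGroup (X → k))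

noncomputable instance : Module k (PP k X) := inferInstanceAs (Module k (X → k))

open Classical in
/-- The homomorphism from the free algebra to `k^X` sending `y_x` to the indicator of `x`. -/
noncomputable def ev : FA k X →ₐ[k] (X → k) :=
  MonoidAlgebra.lift k (X → k) (FreeMonoid X) (FreeMonoid.lift (fun x => Pi.single x (1 : k)))

open Classical in
theorem ev_gen (x : X) : ev k X (gen k x) = Pi.single x (1 : k) := by
  unfold ev gen
  simp

noncomputable instance : Module (FA k X) (PP k X) :=
  Module.compHom (X → k) (ev k X).toRingHom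

variable {k X}

theorem PP_smul_apply (r : FA k X) (p : PP k X) (x : X) : (r • p) x = ev k X r x * p x := rfl

theorem PP_ksmul_apply (c : k) (p : PP k X) (x : X) : (c • p) x = c * p x := rfl

theorem PP_add_apply (p q : PP k X) (x : X) : (p + q) x = p x + q x := rfl

theorem PP_sub_apply (p q : PP k X) (x : X) : (p - q) x = p x - q x := rfl

theorem PP_zero_apply (x : X) : (0 : PP k X) x = 0 := rfl

open Classical in
theorem PP_gen_smul_apply (α : X) (p : PP k X) (x : X) :
    (gen k α • p) x = if α = x then p x else 0 := by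
  rw [PP_smul_apply, ev_gen]
  by_cases h : α = x
  · subst h; simp
  · rw [if_neg h, Pi.single_eq_of_ne (Ne.symm h), zero_mul]

instance : IsScalarTower k (FA k X) (PP k X) where
  smul_assoc c r p := by
    funext x
    rw [PP_smul_apply, PP_ksmul_apply, PP_smul_apply, map_smul, Pi.smul_apply, smul_eq_mul,
      mul_assoc]

/-- Countable support. -/
def CS (p : PP k X) : Prop := {x | p x ≠ 0}.Countable

theorem CS.add {p q : PP k X} (hp : CS p) (hq : CS q) : CS (p + q) := by
  refine (hp.union hq).mono ?_
  intro x hx
  by_contra hc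
  simp only [Set.mem_union, Set.mem_ofPred_eq, not_or, not_not] at hc
  exact hx (by rw [PP_add_apply, hc.1, hc.2, add_zero])

theorem CS.sub {p q : PP k X} (hp : CS p) (hq : CS q) : CS (p - q) := by
  refine (hp.union hq).mono ?_
  intro x hx
  by_contra hc
  simp only [Set.mem_union, Set.mem_ofPred_eq, not_or, not_not] at hc
  exact hx (by rw [PP_sub_apply, hc.1, hc.2, sub_zero])

theorem CS.zero : CS (0 : PP k X) := by
  refine (Set.countable_empty).mono ?_
  intro x hx
  exact absurd (PP_zero_apply x) hx

theorem CS.gen (α : X) (p : PP k X) : CS (gen k α • p) := by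
  classical
  refine (Set.countable_singleton α).mono ?_
  intro x hx
  by_contra hc
  refine hx ?_
  rw [PP_gen_smul_apply, if_neg]
  exact fun h => hc (by simp [h])

theorem CS.smul (r : FA k X) {p : PP k X} (hp : CS p) : CS (r • p) := by
  refine hp.mono ?_
  intro x hx h
  exact hx (by rw [PP_smul_apply, h, mul_zero])

variable {L : Type} [AddCommGroup L] [Module (FA k X) L]
  [Module k L] [IsScalarTower k (FA k X) L]

/-- Assembling functionals `G_x` vanishing on `KK x` into a linear map to `PP`. -/
noncomputable def assemble (G : X → (L →ₗ[k] k)) (hG : ∀ x, ∀ u ∈ KK k L x, G x u = 0) :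
    L →ₗ[FA k X] PP k X :=
  let T : L →ₗ[k] PP k X :=
    { toFun := fun l x => G x l
      map_add' := fun a b => by funext x; rw [map_add]; rfl
      map_smul' := fun c a => by funext x; rw [map_smul]; rfl }
  { toFun := T
    map_add' := fun a b => map_add T a b
    map_smul' := fun r l => by
      refine map_smul_of_gen T ?_ r l
      intro α l
      classical
      funext x
      rw [PP_gen_smul_apply]
      exact map_gen_smul G hG α x l }

theorem assemble_apply (G : X → (L →ₗ[k] k)) (hG : ∀ x, ∀ u ∈ KK k L x, G x u = 0) (l : L)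
    (x : X) : assemble G hG l x = G x l := rfl

/-- An `R`-linear map to `PP` has coordinates vanishing on `KK x`. -/
theorem coord_eq_zero (h : L →ₗ[FA k X] PP k X) (x : X) {u : L} (hu : u ∈ KK k L x) :
    h u x = 0 := by
  classical
  obtain ⟨f, d, rfl⟩ := mem_KK.1 hu
  rw [map_add, PP_add_apply, sub_smul, one_smul, map_sub, PP_sub_apply, map_smul,
    PP_gen_smul_apply, if_pos rfl, sub_self, zero_add]
  induction d using Finsupp.induction_linear with
  | zero => simp [PP_zero_apply]
  | add d e hd he =>
    rw [Finsupp.sum_add_index' (by simp) (by intros; simp [smul_add]), map_add, PP_add_apply,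
      hd, he, add_zero]
    · exact mem_KK.2 ⟨f, e, rfl⟩
    · exact mem_KK.2 ⟨f, d, rfl⟩
  | single α l =>
    rw [Finsupp.sum_single_index (by simp), map_smul, PP_gen_smul_apply, if_neg α.2]

/-- (E): linear maps to `PP` extend along inclusions with flat cokernel. -/
theorem extend_PP {K : Submodule (FA k X) L} (hK : FlatQuot K) (h : K →ₗ[FA k X] PP k X) :
    ∃ H : L →ₗ[FA k X] PP k X, ∀ u : K, H u = h u := by
  classical
  have key : ∀ x : X, ∃ G : L →ₗ[k] k, (∀ v : K, G v = h v x) ∧ ∀ u ∈ KK k L x, G u = 0 := by
    intro x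
    -- the `k`-linear functional on `K`
    let hx : (K.restrictScalars k) →ₗ[k] k :=
      { toFun := fun v => h ⟨v.1, v.2⟩ x
        map_add' := fun a b => by
          have : (⟨(a + b).1, (a + b).2⟩ : K) = ⟨a.1, a.2⟩ + ⟨b.1, b.2⟩ := rfl
          rw [this, map_add, PP_add_apply]
        map_smul' := fun c a => by
          have : (⟨(c • a).1, (c • a).2⟩ : K) = (algebraMap k (FA k X) c) • ⟨a.1, a.2⟩ := by
            apply Subtype.ext
            exact (algebraMap_smul (FA k X) c (a : L)).symm
          rw [this, map_smul, algebraMap_smul, PP_ksmul_apply]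
          rfl }
    obtain ⟨g, hg⟩ := LinearMap.exists_extend hx
    have hgv : ∀ v : K, g v = h v x := by
      intro v
      have := LinearMap.congr_fun hg ⟨v.1, v.2⟩
      exact this
    obtain ⟨G, hG1, hG2⟩ := exists_functional (K.restrictScalars k) (KK k L x) g (by
      intro u hu hu'
      obtain ⟨f, d, hd⟩ := mem_KK.1 hu'
      -- use purity
      have hsum : u = ∑ i : Option d.support, (match i with
          | none => (1 - gen k x)
          | some α => gen k α.1.1 : FA k X) • (match i with
          | none => f
          | some α => d α.1 : L) := by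
        rw [Fintype.sum_option, hd]
        congr 1
        rw [Finsupp.sum, ← Finset.sum_coe_sort]
      have huK : u ∈ K := hu
      rw [hsum] at huK
      obtain ⟨κ, hκ, hκs⟩ := hK.pure _ _ huK
      rw [← hsum, Fintype.sum_option] at hκs
      have hu2 : u = ((⟨(1 - gen k x) • κ none + ∑ i : d.support, gen k i.1.1 • κ (some i),
          by rw [← hκs]; exact hu⟩ : K) : L) := hκs
      rw [hu2, hgv]
      have h3 : (⟨(1 - gen k x) • κ none + ∑ i : d.support, gen k i.1.1 • κ (some i),
          by rw [← hκs]; exact hu⟩ : K) = (1 - gen k x) • ⟨κ none, hκ none⟩ +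
          ∑ i : d.support, gen k i.1.1 • ⟨κ (some i), hκ (some i)⟩ := by
        apply Subtype.ext
        simp
      rw [h3]
      apply coord_eq_zero (L := K)
      apply Submodule.add_mem _ (one_sub_gen_smul_mem x _)
      apply Submodule.sum_mem
      intro i _
      exact gen_smul_mem i.1.2 _)
    exact ⟨G, fun v => by rw [hG1 v v.2, hgv], hG2⟩
  choose G hG1 hG2 using key
  refine ⟨assemble G hG2, fun u => ?_⟩
  funext x
  rw [assemble_apply, hG1]

end PP

end H31.Cot
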