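import Mathlib
import Pool.Agent.H31.Cot.Lift

set_option linter.unusedSimpArgs false
set_option linter.unusedVariables false

namespace H31.Cot

variable {k X : Type} [Field k] {M : Type} [AddCommGroup M] [Module (FA k X) M]
  [Module k M] [IsScalarTower k (FA k X) M]

/-- If `B` is uncountable and `s β` is a finite set for every `β`, there are distinct
`β, β' ∈ B` with `β ∉ s β'` and `β' ∉ s β`. -/
theorem exists_free_pair (B : Set X) (hB : ¬ B.Countable) (s : X → Finset X) :
    ∃ β ∈ B, ∃ β' ∈ B, β ≠ β' ∧ β ∉ s β' ∧ β' ∉ s β := by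
  classical
  have hinf : B.Infinite := fun h => hB h.countable
  let e := hinf.natEmbedding
  let B₀ : Set X := Set.range (fun n => (e n : X))
  have hB₀c : B₀.Countable := Set.countable_range _
  have hB₀inf : B₀.Infinite := Set.infinite_range_of_injective
    (fun a b h => e.injective (Subtype.ext h))
  have hB₀B : B₀ ⊆ B := by rintro _ ⟨n, rfl⟩; exact (e n).2
  let T : Set X := B₀ ∪ ⋃ β ∈ B₀, (s β : Set X)
  have hT : T.Countable := hB₀c.union (hB₀c.biUnion (fun β _ => (s β).countable_toSet))
  obtain ⟨β', hβ'B, hβ'T⟩ : ∃ β' ∈ B, β' ∉ T := by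
    by_contra hcon
    push Not at hcon
    exact hB (hT.mono hcon)
  obtain ⟨β, hβ, hβs⟩ := hB₀inf.exists_notMem_finset (s β')
  refine ⟨β, hB₀B hβ, β', hβ'B, ?_, hβs, ?_⟩
  · rintro rfl
    exact hβ'T (Or.inl hβ)
  · intro h
    apply hβ'T
    right
    simp only [Set.mem_iUnion]
    exact ⟨β, hβ, h⟩

/-- (a): for `u ∉ 𝔪 M`, only countably many `β` satisfy `u ∈ KK β`. -/
theorem countable_KK (hM : IsFlat (FA k X) M) {u : M} (hu : u ∉ MM k X M) :
    {β : X | u ∈ KK k M β}.Countable := by
  classical
  by_contra hunc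
  have hrep : ∀ β : X, ∃ (f : M) (h : X →₀ M), u ∈ KK k M β →
      (h β = 0 ∧ u = (1 - gen k β) • f + h.sum (fun α l => gen k α • l)) := by
    intro β
    by_cases hβ : u ∈ KK k M β
    · obtain ⟨f, h, hh⟩ := mem_KK.1 hβ
      refine ⟨f, h.mapDomain Subtype.val, fun _ => ⟨?_, ?_⟩⟩
      · apply Finsupp.mapDomain_of_notMem_range
        rintro ⟨α, hα⟩
        exact α.2 hα
      · rw [hh, Finsupp.sum_mapDomain_index]
        · intro; simp
        · intros; simp [smul_add]
    · exact ⟨0, 0, fun h => absurd h hβ⟩
  choose f h hfh using hrep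
  obtain ⟨β, hβ, β', hβ', hne, h1, h2⟩ := exists_free_pair _ hunc (fun β => (h β).support)
  obtain ⟨hz, hu1⟩ := hfh β hβ
  obtain ⟨hz', hu2⟩ := hfh β' hβ'
  -- the relation
  set s : Finset X := (h β).support ∪ (h β').support with hs
  have hd1 : (h β).sum (fun α l => gen k α • l) = ∑ α ∈ s, gen k α • h β α := by
    apply Finsupp.sum_of_support_subset _ Finset.subset_union_left
    intros; simp
  have hd2 : (h β').sum (fun α l => gen k α • l) = ∑ α ∈ s, gen k α • h β' α := by
    apply Finsupp.sum_of_support_subset _ Finset.subset_union_right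
    intros; simp
  have hβs : β ∉ s := by
    rw [hs, Finset.mem_union]
    push Not
    exact ⟨by simpa using hz, h1⟩
  have hβ's : β' ∉ s := by
    rw [hs, Finset.mem_union]
    push Not
    exact ⟨h2, by simpa using hz'⟩
  let r : Option (Option s) → FA k X := fun i => match i with
    | none => 1 - gen k β
    | some none => 1 - gen k β'
    | some (some α) => gen k α.1
  let v : Option (Option s) → M := fun i => match i with
    | none => f β
    | some none => - f β'
    | some (some α) => h β α.1 - h β' α.1
  have hrel : ∑ i, r i • v i = 0 := by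
    rw [Fintype.sum_option, Fintype.sum_option]
    simp only [r, v]
    have : ∑ i : s, gen k i.1 • (h β i.1 - h β' i.1)
        = (∑ α ∈ s, gen k α • h β α) - ∑ α ∈ s, gen k α • h β' α := by
      rw [← Finset.sum_sub_distrib, Finset.sum_coe_sort s (fun α => gen k α • (h β α - h β' α))]
      apply Finset.sum_congr rfl
      intros; rw [smul_sub]
    rw [this, ← hd1, ← hd2]
    have e1 : (h β).sum (fun α l => gen k α • l) = u - (1 - gen k β) • f β := by
      rw [eq_sub_iff_add_eq, add_comm]; exact hu1.symm
    have e2 : (h β').sum (fun α l => gen k α • l) = u - (1 - gen k β') • f β' := by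
      rw [eq_sub_iff_add_eq, add_comm]; exact hu2.symm
    rw [e1, e2, smul_neg]
    abel
  obtain ⟨m, a, g, ha1, ha2⟩ := hM.fintype r v hrel
  have hzero : ∀ j, a none j = 0 := by
    intro j
    have := ha2 j
    rw [Fintype.sum_option, Fintype.sum_option] at this
    exact (indep β β' hne _ _ (fun α : s => α.1) _
      (fun α hα => hβs (hα ▸ α.2)) (fun α hα => hβ's (hα ▸ α.2)) this).1
  have hf0 : f β = 0 := by
    have := ha1 none
    simp only [hzero, zero_smul, Finset.sum_const_zero] at this
    exact this
  apply hu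
  rw [hf0, smul_zero, zero_add] at hu1
  exact mem_MM.2 ⟨h β, hu1⟩

/-- (S): lifting modulo countable support from small flat modules. -/
theorem small_lift [Countable k] (hM : IsFlat (FA k X) M) {W : Type} [LinearOrder W]
    (hW : ∀ w : W, (Set.Iic w).Countable) (e : W → M) (he : Function.Surjective e)
    (g : M →ₗ[k] PP k X) (hg : ∀ (α : X) (m : M), CS (g (gen k α • m))) :
    ∃ G : M →ₗ[FA k X] PP k X, ∀ m, CS (G m - g m) := by
  classical
  -- elements of `𝔪 M` are mapped into countably supported functions
  have A2 : ∀ u ∈ MM k X M, CS (g u) := by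
    intro u hu
    obtain ⟨h, rfl⟩ := mem_MM.1 hu
    induction h using Finsupp.induction_linear with
    | zero => simpa using CS.zero
    | add d e hd he =>
      rw [Finsupp.sum_add_index' (by simp) (by intros; simp [smul_add]), map_add]
      exact (hd (mem_MM.2 ⟨d, rfl⟩)).add (he (mem_MM.2 ⟨e, rfl⟩))
    | single α l =>
      rw [Finsupp.sum_single_index (by simp)]
      exact hg α l
  let U : W → Submodule k M := fun w => Submodule.span k (e '' Set.Iic w)
  have hUc : ∀ w, (U w : Set M).Countable := by
    intro w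
    have hc : (e '' Set.Iic w).Countable := (hW w).image e
    have : Countable (e '' Set.Iic w) := hc
    have : (U w : Set M) = Set.range (Finsupp.linearCombination k
        (fun x : (e '' Set.Iic w) => (x : M))) := by
      have := Finsupp.range_linearCombination k (v := fun x : (e '' Set.Iic w) => (x : M))
      rw [Subtype.range_coe] at this
      change ((Submodule.span k (e '' Set.Iic w) : Submodule k M) : Set M) = _
      rw [← this]
      rfl
    rw [this]
    exact Set.countable_range _
  have hUmono : Monotone U := by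
    intro w w' hww'
    exact Submodule.span_mono (Set.image_mono (Set.Iic_subset_Iic.2 hww'))
  let Con : X → W → Prop := fun β w => ∀ u ∈ U w, u ∈ KK k M β → g u β = 0
  have hCon : ∀ β w w', w ≤ w' → Con β w' → Con β w := fun β w w' h hc u hu =>
    hc u (hUmono h hu)
  have A3 : ∀ w, {β | ¬ Con β w}.Countable := by
    intro w
    have hc : (⋃ u ∈ (U w : Set M), {β : X | (u ∈ KK k M β) ∧ g u β ≠ 0}).Countable := by
      apply (hUc w).biUnion
      intro u _
      by_cases hu : u ∈ MM k X M
      · exact (A2 u hu).mono (fun β hβ => hβ.2)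
      · exact (countable_KK hM hu).mono (fun β hβ => hβ.1)
    refine hc.mono ?_
    intro β hβ
    simp only [Set.mem_ofPred_eq, Con] at hβ
    push Not at hβ
    obtain ⟨u, hu, hu', hne⟩ := hβ
    simp only [Set.mem_iUnion]
    exact ⟨u, hu, hu', hne⟩
  -- coordinate functionals of `g`
  let gc : X → (M →ₗ[k] k) := fun β =>
    { toFun := fun m => g m β
      map_add' := fun a b => by rw [map_add]; rfl
      map_smul' := fun c a => by rw [map_smul]; rfl }
  have key : ∀ β : X, ∃ G : M →ₗ[k] k, (∀ w, Con β w → ∀ u ∈ U w, G u = g u β) ∧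
      ∀ u ∈ KK k M β, G u = 0 := by
    intro β
    by_cases hne : Nonempty {w // Con β w}
    · let V : {w // Con β w} → Submodule k M := fun w => U w.1
      have hdir : Directed (· ≤ ·) V := by
        intro a b
        rcases le_total a.1 b.1 with h | h
        · exact ⟨b, hUmono h, le_rfl⟩
        · exact ⟨a, le_rfl, hUmono h⟩
      obtain ⟨G, hG1, hG2⟩ := exists_functional (⨆ w, V w) (KK k M β) (gc β) (by
        intro u hu hu'
        rw [Submodule.mem_iSup_of_directed _ hdir] at hu
        obtain ⟨w, hw⟩ := hu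
        exact w.2 u hw hu')
      refine ⟨G, fun w hw u hu => ?_, hG2⟩
      exact hG1 u (Submodule.mem_iSup_of_mem (⟨w, hw⟩ : {w // Con β w}) hu)
    · refine ⟨0, fun w hw => absurd ⟨⟨w, hw⟩⟩ hne, fun u _ => rfl⟩
  choose G hG1 hG2 using key
  refine ⟨assemble G hG2, fun m => ?_⟩
  obtain ⟨w, rfl⟩ := he m
  refine (A3 w).mono ?_
  intro β hβ hcon
  apply hβ
  rw [PP_sub_apply, assemble_apply, hG1 β w hcon (e w), sub_self]
  exact Submodule.subset_span ⟨w, Set.mem_Iic.2 le_rfl, rfl⟩

end H31.Cot
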