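import Mathlib
import Pool.Agent.H31.Cot.SmallLift
import Pool.Agent.H31.Cot.Small

set_option linter.unusedSimpArgs false
set_option linter.unusedVariables false

namespace H31.Cot

open Cardinal

variable {k X : Type} [Field k]

/-- A partially defined solution of the lifting problem can be extended. -/
theorem step_lift [Countable k] {W : Type} [LinearOrder W]
    (hW : ∀ w : W, (Set.Iic w).Countable) (hW1 : ℵ₀ ≤ #W) (hR : #(FA k X) ≤ #W)
    {L : Type} [AddCommGroup L] [Module (FA k X) L] [Module k L] [IsScalarTower k (FA k X) L]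
    (θ : L →ₗ[FA k X] PP k X) (f : L →ₗ.[FA k X] PP k X) (hf : FlatQuot f.domain)
    (hfθ : ∀ x : f.domain, CS (θ x - f x)) (l₀ : L) :
    ∃ f' : L →ₗ.[FA k X] PP k X, FlatQuot f'.domain ∧ (∀ x : f'.domain, CS (θ x - f' x)) ∧
      f ≤ f' ∧ l₀ ∈ f'.domain := by
  classical
  have hN : IsFlat (FA k X) (L ⧸ f.domain) := (flatQuot_iff _).2 hf
  obtain ⟨M, hl₀, hMcard, hMpure⟩ := exists_pure_small (#W) hW1 hR (f.domain.mkQ l₀)
  have hMflat : IsFlat (FA k X) M := hMpure.isFlat hN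
  have hMq : FlatQuot M := hMpure.flatQuot hN
  obtain ⟨θ', hθ'⟩ := extend_PP hf f.toFun
  let τ : L →ₗ[FA k X] PP k X := θ - θ'
  have hτ : ∀ u ∈ f.domain, CS (τ u) := by
    intro u hu
    have := hfθ ⟨u, hu⟩
    have h2 := hθ' ⟨u, hu⟩
    change CS (θ u - θ' u)
    rw [show θ' u = f ⟨u, hu⟩ from h2]
    exact this
  obtain ⟨σ, hσ⟩ := LinearMap.exists_rightInverse_of_surjective
    ((f.domain.mkQ).restrictScalars k) (by
      rw [LinearMap.range_eq_top]
      exact Submodule.mkQ_surjective _)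
  have hσ' : ∀ n, f.domain.mkQ (σ n) = n := fun n => LinearMap.congr_fun hσ n
  let g : M →ₗ[k] PP k X := (τ.restrictScalars k).comp (σ.comp (M.subtype.restrictScalars k))
  have hgdef : ∀ m : M, g m = τ (σ m) := fun m => rfl
  have hg : ∀ (α : X) (m : M), CS (g (gen k α • m)) := by
    intro α m
    have h1 : σ (gen k α • (m : L ⧸ f.domain)) - gen k α • σ m ∈ f.domain := by
      rw [← Submodule.Quotient.mk_eq_zero, ← Submodule.mkQ_apply, map_sub, hσ', map_smul, hσ',
        sub_self]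
    have h2 : g (gen k α • m) = τ (σ (gen k α • (m : L ⧸ f.domain)) - gen k α • σ m)
        + gen k α • τ (σ m) := by
      rw [map_sub τ, map_smul τ, sub_add_cancel]
      rfl
    rw [h2]
    exact (hτ _ h1).add (CS.gen α _)
  have hMne : Nonempty M := ⟨0⟩
  obtain ⟨emb⟩ : Nonempty (M ↪ W) := hMcard
  obtain ⟨G', hG'⟩ := small_lift hMflat hW (Function.invFun emb)
    (Function.invFun_surjective emb.injective) g hg
  let F₁ : Submodule (FA k X) L := M.comap f.domain.mkQ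
  let pr : F₁ →ₗ[FA k X] M := (f.domain.mkQ.comp F₁.subtype).codRestrict M (fun x => x.2)
  have hpr : ∀ x : F₁, ((pr x : M) : L ⧸ f.domain) = f.domain.mkQ x := fun x => rfl
  let f' : L →ₗ.[FA k X] PP k X := ⟨F₁, θ'.comp F₁.subtype + G'.comp pr⟩
  have hf'def : ∀ x : F₁, f' x = θ' x + G' (pr x) := fun x => rfl
  refine ⟨f', hf.comap hMq, fun x => ?_, ?_, ?_⟩
  · have e1 : θ (x : L) - f' x = τ ((x : L) - σ (pr x : M)) - (G' (pr x) - g (pr x)) := by
      rw [hf'def, map_sub, hgdef]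
      change θ (x : L) - (θ' (x : L) + G' (pr x)) = (θ (x : L) - θ' (x : L)) - _ - _
      abel
    rw [e1]
    apply CS.sub _ (hG' _)
    apply hτ
    rw [← Submodule.Quotient.mk_eq_zero, ← Submodule.mkQ_apply, map_sub, hσ', hpr, sub_self]
  · refine ⟨?_, ?_⟩
    · intro u hu
      change f.domain.mkQ u ∈ M
      have : f.domain.mkQ u = 0 := by simpa using hu
      rw [this]; exact M.zero_mem
    · intro x y hxy
      have hy : pr y = 0 := by
        apply Subtype.ext
        rw [hpr, ← hxy]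
        simp
      rw [hf'def, hy, map_zero, add_zero, ← hxy]
      exact (hθ' x).symm
  · exact hl₀

theorem big_lift [Countable k] {W : Type} [LinearOrder W]
    (hW : ∀ w : W, (Set.Iic w).Countable) (hW1 : ℵ₀ ≤ #W) (hR : #(FA k X) ≤ #W)
    {L : Type} [AddCommGroup L] [Module (FA k X) L] [Module k L] [IsScalarTower k (FA k X) L]
    {K : Submodule (FA k X) L} (hK : FlatQuot K) (θ : L →ₗ[FA k X] PP k X)
    (hθ : ∀ u ∈ K, CS (θ u)) :
    ∃ G : L →ₗ[FA k X] PP k X, (∀ u ∈ K, G u = 0) ∧ ∀ l, CS (θ l - G l) := by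
  classical
  let s : Set (L →ₗ.[FA k X] PP k X) :=
    {f | FlatQuot f.domain ∧ ∀ x : f.domain, CS (θ x - f x)}
  let x₀ : L →ₗ.[FA k X] PP k X := ⟨K, 0⟩
  have hx₀ : x₀ ∈ s := by
    refine ⟨hK, fun x => ?_⟩
    change CS (θ x - 0)
    rw [sub_zero]
    exact hθ x x.2
  obtain ⟨m, hxm, hms, hmax⟩ := zorn_le_nonempty₀ s (by
    intro c hcs hc y hy
    have hdir : DirectedOn (· ≤ ·) c := hc.directedOn
    refine ⟨LinearPMap.sSup c hdir, ⟨?_, ?_⟩, fun z hz => LinearPMap.le_sSup hdir hz⟩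
    · rw [LinearPMap.domain_sSup]
      apply FlatQuot.sSup
      · exact ⟨y.domain, ⟨y, hy, rfl⟩⟩
      · rintro _ ⟨a, ha, rfl⟩ _ ⟨b, hb, rfl⟩
        obtain ⟨d, hd, h1, h2⟩ := hdir a ha b hb
        exact ⟨d.domain, ⟨d, hd, rfl⟩, h1.1, h2.1⟩
      · rintro _ ⟨a, ha, rfl⟩
        exact (hcs ha).1
    · rintro ⟨x, hx⟩
      obtain ⟨f, hf, hxf⟩ := (LinearPMap.mem_domain_sSup_iff ⟨y, hy⟩ hdir).1 hx
      have := LinearPMap.sSup_apply hdir hf ⟨x, hxf⟩
      change CS (θ x - (LinearPMap.sSup c hdir) ⟨x, _⟩)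
      rw [this]
      exact (hcs hf).2 ⟨x, hxf⟩) x₀ hx₀
  have htop : ∀ l, l ∈ m.domain := by
    intro l
    obtain ⟨f', h1, h2, h3, h4⟩ := step_lift hW hW1 hR θ m hms.1 hms.2 l
    exact (hmax ⟨h1, h2⟩ h3).1 h4
  let G : L →ₗ[FA k X] PP k X :=
    { toFun := fun l => m ⟨l, htop l⟩
      map_add' := fun a b => by
        rw [← LinearPMap.map_add]; rfl
      map_smul' := fun r a => by
        rw [RingHom.id_apply, ← LinearPMap.map_smul]; rfl }
  refine ⟨G, fun u hu => ?_, fun l => hms.2 ⟨l, htop l⟩⟩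
  have := hxm.2 (x := ⟨u, hu⟩) (y := ⟨u, htop u⟩) rfl
  exact this.symm

/-- Countably supported functions are injective relative to inclusions with flat cokernel. -/
theorem extend_CS [Countable k] {W : Type} [LinearOrder W]
    (hW : ∀ w : W, (Set.Iic w).Countable) (hW1 : ℵ₀ ≤ #W) (hR : #(FA k X) ≤ #W)
    {C : Type} [AddCommGroup C] [Module (FA k X) C] (ι : C →ₗ[FA k X] PP k X)
    (hι : Function.Injective ι) (hr : ∀ p : PP k X, CS p ↔ p ∈ LinearMap.range ι)
    {L : Type} [AddCommGroup L] [Module (FA k X) L] 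
    {K : Submodule (FA k X) L} (hK : FlatQuot K) (h : K →ₗ[FA k X] C) :
    ∃ H : L →ₗ[FA k X] C, ∀ u : K, H u = h u := by
  classical
  let _ : Module k L := Module.compHom L (algebraMap k (FA k X))
  have _ : IsScalarTower k (FA k X) L := ⟨fun c r l => by
    rw [Algebra.smul_def, mul_smul]; rfl⟩
  obtain ⟨θ, hθ⟩ := extend_PP hK (ι.comp h)
  obtain ⟨G, hG1, hG2⟩ := big_lift hW hW1 hR hK θ (by
    intro u hu
    have := hθ ⟨u, hu⟩
    rw [show θ u = ι (h ⟨u, hu⟩) from this, hr]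
    exact LinearMap.mem_range_self _ _)
  let D : L →ₗ[FA k X] LinearMap.range ι := (θ - G).codRestrict _ (fun l => (hr _).1 (hG2 l))
  let E : C ≃ₗ[FA k X] LinearMap.range ι := LinearEquiv.ofInjective ι hι
  refine ⟨E.symm.toLinearMap.comp D, fun u => ?_⟩
  rw [LinearMap.comp_apply, LinearEquiv.coe_coe, LinearEquiv.symm_apply_eq]
  apply Subtype.ext
  change θ u - G u = ι (h u)
  rw [hG1 u u.2, sub_zero, hθ u]
  rfl

end H31.Cot
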