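import Mathlib
import Pool.Agent.H31.Cot.Flat

set_option linter.unusedSimpArgs false
set_option linter.unusedVariables false

namespace H31.Cot

open CategoryTheory CategoryTheory.Abelian

theorem flatQuot_ker {S : Type} [Ring S] {L F : Type} [AddCommGroup L] [Module S L]
    [AddCommGroup F] [Module S F] (hF : IsFlat S F) (e : L →ₗ[S] F)
    (he : Function.Surjective e) : FlatQuot (LinearMap.ker e) := by
  intro n r f hf
  rw [LinearMap.mem_ker, map_sum] at hf
  simp only [map_smul] at hf
  obtain ⟨m, a, g, h1, h2⟩ := hF n r (fun i => e (f i)) hf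
  choose g' hg' using fun j => he (g j)
  refine ⟨m, a, g', fun i => ?_, h2⟩
  rw [LinearMap.mem_ker, map_sub, map_sum, sub_eq_zero]
  simpa only [map_smul, hg'] using h1 i

theorem isCotorsion_of_extend {S : Type} [Ring S] (C : ModuleCat.{0} S)
    (h : ∀ (L : Type) [AddCommGroup L] [Module S L] (K : Submodule S L), FlatQuot K →
      ∀ h : K →ₗ[S] C, ∃ H : L →ₗ[S] C, ∀ u : K, H u = h u) : IsCotorsion S C := by
  intro F hF
  let e : (F →₀ S) →ₗ[S] F := Finsupp.linearCombination S id
  have he : Function.Surjective e := by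
    intro x
    exact ⟨Finsupp.single x 1, by simp [e]⟩
  have hS := LinearMap.shortExact_shortComplexKer he
  have hproj : Projective e.shortComplexKer.X₂ := by
    change Projective (ModuleCat.of S (F →₀ S))
    rw [← IsProjective.iff_projective]
    infer_instance
  refine subsingleton_of_forall_eq 0 (fun x => ?_)
  obtain ⟨y, hy⟩ := precomp_extClass_surjective_of_projective_X₂ C hS 0 x
  obtain ⟨φ, rfl⟩ := (Ext.mk₀_bijective _ _).2 y
  obtain ⟨H, hH⟩ := h (F →₀ S) (LinearMap.ker e) (flatQuot_ker hF e he) φ.hom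
  have hfac : φ = e.shortComplexKer.f ≫ ModuleCat.ofHom H := by
    ext u
    exact (hH u).symm
  rw [← hy]
  change hS.extClass.comp (Ext.mk₀ φ) (add_comm 1 0) = 0
  rw [hfac, ← Ext.mk₀_comp_mk₀]
  rw [← Ext.comp_assoc (a₁₂ := 1) _ _ _ (by lia) (by lia) (by lia), hS.extClass_comp,
    Ext.zero_comp]

theorem extend_of_isCotorsion {S : Type} [Ring S] {C : ModuleCat.{0} S} (hC : IsCotorsion S C)
    (L : Type) [AddCommGroup L] [Module S L] (K : Submodule S L) (hK : FlatQuot K)
    (h : K →ₗ[S] C) : ∃ H : L →ₗ[S] C, ∀ u : K, H u = h u := by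
  let T := ModuleCat.shortComplexOfCompEqZero K.subtype K.mkQ (by ext; simp)
  have hT : T.ShortExact := by
    apply ModuleCat.shortComplex_shortExact
    · change Function.Exact K.subtype K.mkQ
      rw [LinearMap.exact_iff]
      simp
    · exact K.injective_subtype
    · exact K.mkQ_surjective
  have hsub := hC (ModuleCat.of S (L ⧸ K)) ((flatQuot_iff K).2 hK)
  have hsub' : Subsingleton (Ext.{0} T.X₃ C 1) := hsub
  obtain ⟨y, hy⟩ := Ext.contravariant_sequence_exact₁ hT C (Ext.mk₀ (ModuleCat.ofHom h : T.X₁ ⟶ C))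
    (n₁ := 1) (by lia) (hsub'.elim _ _)
  obtain ⟨φ, rfl⟩ := (Ext.mk₀_bijective _ _).2 y
  rw [Ext.mk₀_comp_mk₀] at hy
  have := (Ext.mk₀_bijective _ _).1 hy
  refine ⟨φ.hom, fun u => ?_⟩
  have h2 := congrArg (fun z => z.hom u) this
  exact h2

end H31.Cot
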