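import Mathlib
import Pool.Agent.H31.Cot.Ext
import Pool.Agent.H31.Cot.BigLift

set_option linter.unusedSimpArgs false
set_option linter.unusedVariables false

namespace H31.Cot

open Cardinal CategoryTheory

section

variable (k X : Type) [Field k]

/-- The commutative ring `A`: the image of the free algebra in `k^X`. -/
noncomputable abbrev AA : Subalgebra k (X → k) := (ev k X).range

/-- The surjection from the free algebra to `A`. -/
noncomputable def toA : FA k X →+* AA k X := (ev k X).rangeRestrict.toRingHom

theorem toA_surjective : Function.Surjective (toA k X) := (ev k X).rangeRestrict_surjective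

theorem toA_coe (r : FA k X) : ((toA k X r : AA k X) : X → k) = ev k X r := rfl

/-- The `A`-module of functions with countable support. -/
def CC : Submodule (AA k X) (X → k) where
  carrier := {p | {x | p x ≠ 0}.Countable}
  add_mem' {p q} hp hq := CS.add (k := k) (X := X) (p := p) (q := q) hp hq
  zero_mem' := CS.zero (k := k) (X := X)
  smul_mem' a p hp := by
    refine Set.Countable.mono ?_ hp
    intro x hx h
    apply hx
    rw [Subalgebra.smul_def, smul_eq_mul, Pi.mul_apply, h, mul_zero]

/-- The `A`-module of functions that are constant outside a countable set. -/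
def EE : Submodule (AA k X) (X → k) where
  carrier := {p | ∃ c : k, {x | p x ≠ c}.Countable}
  add_mem' := by
    rintro p q ⟨c, hc⟩ ⟨d, hd⟩
    refine ⟨c + d, (hc.union hd).mono ?_⟩
    intro x hx
    by_contra hcon
    simp only [Set.mem_union, Set.mem_ofPred_eq, not_or, not_not] at hcon
    exact hx (by rw [Pi.add_apply, hcon.1, hcon.2])
  zero_mem' := ⟨0, by simp⟩
  smul_mem' := by
    rintro ⟨a, ha⟩ p ⟨c, hc⟩
    obtain ⟨r, rfl⟩ := ha
    obtain ⟨d, hd⟩ : ∃ d : k, {x | ev k X r x ≠ d}.Finite := by
      induction r using FA_induction with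
      | one => exact ⟨1, by simp⟩
      | add a b ha hb =>
        obtain ⟨d, hd⟩ := ha
        obtain ⟨e, he⟩ := hb
        refine ⟨d + e, (hd.union he).subset ?_⟩
        intro x hx
        by_contra hcon
        simp only [Set.mem_union, Set.mem_ofPred_eq, not_or, not_not] at hcon
        exact hx (by rw [map_add, Pi.add_apply, hcon.1, hcon.2])
      | smul c a ha =>
        obtain ⟨d, hd⟩ := ha
        refine ⟨c * d, hd.subset ?_⟩
        intro x hx h
        exact hx (by rw [map_smul, Pi.smul_apply, smul_eq_mul, h])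
      | mul z a ha =>
        classical
        refine ⟨0, (Set.finite_singleton z).subset ?_⟩
        intro x hx
        by_contra hcon
        exact hx (by rw [map_mul, ev_gen, Pi.mul_apply, Pi.single_eq_of_ne hcon, zero_mul])
    refine ⟨d * c, (hd.countable.union hc).mono ?_⟩
    intro x hx
    by_contra hcon
    simp only [Set.mem_union, Set.mem_ofPred_eq, not_or, not_not] at hcon
    refine hx ?_
    rw [Subalgebra.smul_def, smul_eq_mul, Pi.mul_apply, hcon.2]
    change ev k X r x * c = _
    rw [hcon.1]

end

section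

variable {k X : Type} [Field k]

/-- Elements of `A` are constant outside a finite set. -/
theorem AA_const (a : AA k X) : ∃ d : k, {x | (a : X → k) x ≠ d}.Finite := by
  obtain ⟨a, r, rfl⟩ := a
  change ∃ d : k, {x | ev k X r x ≠ d}.Finite
  induction r using FA_induction with
  | one => exact ⟨1, by simp⟩
  | add a b ha hb =>
    obtain ⟨d, hd⟩ := ha
    obtain ⟨e, he⟩ := hb
    refine ⟨d + e, (hd.union he).subset ?_⟩
    intro x hx
    by_contra hcon
    simp only [Set.mem_union, Set.mem_ofPred_eq, not_or, not_not] at hcon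
    exact hx (by rw [map_add, Pi.add_apply, hcon.1, hcon.2])
  | smul c a ha =>
    obtain ⟨d, hd⟩ := ha
    refine ⟨c * d, hd.subset ?_⟩
    intro x hx h
    exact hx (by rw [map_smul, Pi.smul_apply, smul_eq_mul, h])
  | mul z a ha =>
    classical
    refine ⟨0, (Set.finite_singleton z).subset ?_⟩
    intro x hx
    by_contra hcon
    exact hx (by rw [map_mul, ev_gen, Pi.mul_apply, Pi.single_eq_of_ne hcon, zero_mul])

open Classical in
theorem single_mem (x : X) : (Pi.single x (1 : k) : X → k) ∈ AA k X :=
  ⟨gen k x, ev_gen k X x⟩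

open Classical in
/-- The idempotent of `A` vanishing exactly on the finite set `T`. -/
noncomputable def eT (T : Finset X) : AA k X :=
  1 - ∑ x ∈ T, ⟨Pi.single x 1, single_mem x⟩

open Classical in
theorem eT_apply (T : Finset X) (x : X) :
    ((eT T : AA k X) : X → k) x = if x ∈ T then 0 else 1 := by
  unfold eT
  rw [AddSubgroupClass.coe_sub, Pi.sub_apply, AddSubmonoidClass.coe_finsetSum,
    Finset.sum_apply]
  simp only [Pi.single_apply, Finset.sum_ite_eq]
  split_ifs with h <;> simp

theorem one_mem_EE : (1 : X → k) ∈ EE k X := ⟨1, by simp⟩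

/-- The quotient `E / C` is a flat `A`-module. -/
theorem flatQuot_EC (hX : ¬ (Set.univ : Set X).Countable) :
    FlatQuot (S := AA k X) (L := EE k X) ((CC k X).submoduleOf (EE k X)) := by
  classical
  intro n r f hf
  have hf' : {x | (∑ i, (r i : X → k) x * (f i : X → k) x) ≠ 0}.Countable := by
    have h1 : ((∑ i, r i • f i : EE k X) : X → k) ∈ CC k X := hf
    refine Set.Countable.mono ?_ (show {x | ((∑ i, r i • f i : EE k X) : X → k) x ≠ 0}.Countable
      from h1)
    intro x hx h
    apply hx
    rw [← h, Submodule.coe_sum, Finset.sum_apply]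
    rfl
  choose v hv using fun i => (f i).2
  choose α hα using fun i => AA_const (r i)
  let T : Finset X := Finset.univ.biUnion (fun i => (hα i).toFinset)
  have hT : ∀ x ∉ T, ∀ i, (r i : X → k) x = α i := by
    intro x hx i
    by_contra hne
    exact hx (Finset.mem_biUnion.2 ⟨i, Finset.mem_univ _, by simpa using hne⟩)
  -- the values at infinity satisfy the relation
  have hrel : ∑ i, α i * v i = 0 := by
    have hcount : ((T : Set X) ∪ (⋃ i, {x | (f i : X → k) x ≠ v i}) ∪
        {x | (∑ i, (r i : X → k) x * (f i : X → k) x) ≠ 0}).Countable :=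
      ((T.countable_toSet).union (Set.countable_iUnion hv)).union hf'
    obtain ⟨x, hx⟩ : ∃ x, x ∉ ((T : Set X) ∪ (⋃ i, {x | (f i : X → k) x ≠ v i}) ∪
        {x | (∑ i, (r i : X → k) x * (f i : X → k) x) ≠ 0}) := by
      by_contra hcon
      push Not at hcon
      exact hX (hcount.mono (fun x _ => hcon x))
    simp only [Set.mem_union, Set.mem_iUnion, Set.mem_ofPred_eq, not_or, not_exists, not_not,
      Finset.mem_coe] at hx
    obtain ⟨⟨h1, h2⟩, h3⟩ := hx
    rw [← h3]
    apply Finset.sum_congr rfl
    intro i _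
    rw [hT x h1 i, h2 i]
  refine ⟨1, fun i _ => v i • eT T, fun _ => ⟨1, one_mem_EE⟩, fun i => ?_, fun _ => ?_⟩
  · change ((f i - ∑ j : Fin 1, (v i • eT T : AA k X) • (⟨1, one_mem_EE⟩ : EE k X) : EE k X) :
      X → k) ∈ CC k X
    refine Set.Countable.mono ?_ ((hv i).union T.countable_toSet)
    intro x hx
    by_contra hcon
    simp only [Set.mem_union, Set.mem_ofPred_eq, not_or, not_not, Finset.mem_coe] at hcon
    apply hx
    rw [Fin.sum_univ_one]
    change (f i : X → k) x - (((v i • eT T : AA k X) : X → k) x * 1) = 0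
    rw [hcon.1]
    change v i - (v i * ((eT T : AA k X) : X → k) x) * 1 = 0
    rw [eT_apply, if_neg hcon.2]
    ring
  · apply Subtype.ext
    funext x
    rw [AddSubmonoidClass.coe_finsetSum, Finset.sum_apply]
    change ∑ i, (r i : X → k) x * (v i * ((eT T : AA k X) : X → k) x) = 0
    rw [eT_apply]
    split_ifs with h
    · simp
    · rw [← hrel]
      apply Finset.sum_congr rfl
      intro i _
      rw [hT x h i, mul_one]

theorem not_cotorsion_A (hX : ¬ (Set.univ : Set X).Countable) :
    ¬ IsCotorsion (AA k X) (ModuleCat.of (AA k X) (CC k X)) := by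
  classical
  intro hcot
  let h₀ : (CC k X).submoduleOf (EE k X) →ₗ[AA k X] CC k X :=
    { toFun := fun u => ⟨u.1.1, u.2⟩
      map_add' := fun _ _ => rfl
      map_smul' := fun _ _ => rfl }
  have key : ∃ H : EE k X →ₗ[AA k X] CC k X,
      ∀ u : (CC k X).submoduleOf (EE k X), H (u : EE k X) = h₀ u :=
    extend_of_isCotorsion hcot (EE k X) ((CC k X).submoduleOf (EE k X)) (flatQuot_EC hX) h₀
  obtain ⟨H, hH⟩ := key
  let c : CC k X := H ⟨1, one_mem_EE⟩
  have hc : ∀ x : X, (c : X → k) x = 1 := by
    intro x
    let a : AA k X := ⟨Pi.single x 1, single_mem x⟩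
    have hmem : ((a • (⟨1, one_mem_EE⟩ : EE k X) : EE k X) : X → k) ∈ CC k X := by
      refine Set.Countable.mono ?_ (Set.countable_singleton x)
      intro z hz
      by_contra hcon
      apply hz
      change (Pi.single x (1 : k) : X → k) z * 1 = 0
      rw [Pi.single_eq_of_ne hcon, zero_mul]
    have h1 : H (a • (⟨1, one_mem_EE⟩ : EE k X)) = a • c := map_smul H a _
    have h2 := hH ⟨a • (⟨1, one_mem_EE⟩ : EE k X), hmem⟩
    have h3 : ((a • c : CC k X) : X → k) = ((a • (⟨1, one_mem_EE⟩ : EE k X) : EE k X) : X → k) := by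
      rw [← h1]
      exact congrArg Subtype.val h2
    have h4 := congrFun h3 x
    change (Pi.single x (1 : k) : X → k) x * (c : X → k) x
      = (Pi.single x (1 : k) : X → k) x * 1 at h4
    rw [Pi.single_eq_same, one_mul, one_mul] at h4
    exact h4
  have hcc : {x | (c : X → k) x ≠ 0}.Countable := c.2
  apply hX
  refine hcc.mono ?_
  intro x _
  change (c : X → k) x ≠ 0
  rw [hc x]
  exact one_ne_zero

theorem cotorsion_R [Countable k] {W : Type} [LinearOrder W]
    (hW : ∀ w : W, (Set.Iic w).Countable) (hW1 : ℵ₀ ≤ #W) (hR : #(FA k X) ≤ #W) :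
    IsCotorsion (FA k X)
      ((ModuleCat.restrictScalars (toA k X)).obj (ModuleCat.of (AA k X) (CC k X))) := by
  apply isCotorsion_of_extend
  intro L _ _ K hK h
  let ι : ((ModuleCat.restrictScalars (toA k X)).obj (ModuleCat.of (AA k X) (CC k X)))
      →ₗ[FA k X] PP k X :=
    { toFun := fun c => (show CC k X from c).1
      map_add' := fun _ _ => rfl
      map_smul' := fun r c => rfl }
  refine extend_CS hW hW1 hR ι ?_ ?_ hK h
  · intro a b hab
    exact Subtype.ext hab
  · intro p
    constructor
    · intro hp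
      exact ⟨(⟨p, hp⟩ : CC k X), rfl⟩
    · rintro ⟨c, rfl⟩
      exact (show CC k X from c).2

end

/-- The main theorem. -/
theorem main : ∃ (R A : Type) (_ : Ring R) (_ : CommRing A) (f : R →+* A),
    Function.Surjective f ∧ FinitelyGeneratedRight f ∧ ¬ RelativelyLeftPerfect f := by
  classical
  let X : Type := (Cardinal.aleph.{0} 1).ord.ToType
  have hXcard : #X = Cardinal.aleph.{0} 1 := Cardinal.mk_ord_toType _
  have hfact : Fact (Nat.Prime 2) := ⟨Nat.prime_two⟩
  have hW : ∀ w : X, (Set.Iic w).Countable := by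
    intro w
    have h1 : #(Set.Iio w) < Cardinal.aleph.{0} 1 := by
      have := Cardinal.mk_Iio_toType_ord_lt (c := Cardinal.aleph.{0} 1) w
      simpa using this
    have h2 : (Set.Iio w).Countable := (Cardinal.countable_iff_lt_aleph_one _).2 h1
    have h3 : Set.Iic w = insert w (Set.Iio w) := by
      rw [Set.Iio_insert]
    rw [h3]
    exact h2.insert w
  have hXun : ¬ (Set.univ : Set X).Countable := by
    intro h
    have h1 := (Cardinal.countable_iff_lt_aleph_one _).1 h
    rw [Cardinal.mk_univ, hXcard] at h1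
    exact lt_irrefl _ h1
  have hinf : Infinite X := by
    rw [Cardinal.infinite_iff, hXcard]
    exact Cardinal.aleph0_le_aleph 1
  have hW1 : ℵ₀ ≤ #X := Cardinal.infinite_iff.1 hinf
  have hR : #(FA (ZMod 2) X) ≤ #X := by
    have h1 : #(FreeMonoid X) = #X := by
      change #(List X) = #X
      exact Cardinal.mk_list_eq_mk X
    have hinf2 : Infinite (FreeMonoid X) := by
      rw [Cardinal.infinite_iff, h1]; exact hW1
    rw [MonoidAlgebra.cardinalMk_of_infinite, h1]
    exact max_le ((Cardinal.lt_aleph0_of_finite (ZMod 2)).le.trans hW1) le_rfl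
  refine ⟨FA (ZMod 2) X, AA (ZMod 2) X, inferInstance, inferInstance, toA (ZMod 2) X,
    toA_surjective _ _, ?_, ?_⟩
  · refine ⟨{1}, fun a => ?_⟩
    obtain ⟨r, hr⟩ := toA_surjective (ZMod 2) X a
    exact ⟨fun _ => r, by rw [Finset.sum_singleton, one_mul, hr]⟩
  · intro h
    exact not_cotorsion_A hXun (h _ (cotorsion_R hW hW1 hR))

end H31.Cot
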